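import Pool.Agent.Helper20.NS5.Goals3

/-!
# Packet NS5-CO1 (MP_c578c8_lc): an estimate for large `n`
-/

set_option autoImplicit false

namespace Pool.Agent.Helper96.NS5

open Pool.Agent.Helper20.NS5

theorem large (k : ℕ) (δ : ℝ) (hδ : 0 < δ) :
    ∃ n₁ : ℕ, ∀ n ≥ n₁, (k : ℝ) * n + 1 ≤ 2 ^ (δ * (n : ℝ)) := by
  set d : ℝ := δ * Real.log 2 with hd
  have hd0 : 0 < d := mul_pos hδ (Real.log_pos (by norm_num))
  obtain ⟨n₁, hn₁⟩ := exists_nat_ge (2 * k / d ^ 2)
  refine ⟨n₁, fun n hn => ?_⟩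
  have h1 : 2 * k / d ^ 2 ≤ (n : ℝ) := hn₁.trans (by exact_mod_cast hn)
  rw [div_le_iff₀ (by positivity)] at h1
  have hn0 : (0 : ℝ) ≤ n := Nat.cast_nonneg n
  have h2 := Real.quadratic_le_exp_of_nonneg (x := d * n) (by positivity)
  have h3 : (2 : ℝ) ^ (δ * (n : ℝ)) = Real.exp (d * n) := by
    rw [Real.rpow_def_of_pos (by norm_num), hd]
    congr 1
    ring
  rw [h3]
  have h4 : (k : ℝ) * n ≤ (d * n) ^ 2 / 2 := by
    have h5 : (d * n) ^ 2 / 2 = (n * d ^ 2) * n / 2 := by ring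
    rw [h5]
    nlinarith
  have h6 : 0 ≤ d * n := by positivity
  linarith

theorem co1 : CO1_stmt := by
  intro k a c' ε hε
  set E : ℝ := Real.logb 2 (|c'| + 2) with hE
  have hc0 : (0 : ℝ) < |c'| + 2 := by positivity
  have hE1 : 1 ≤ E := by
    rw [hE, Real.le_logb_iff_rpow_le (by norm_num) hc0, Real.rpow_one]
    linarith [abs_nonneg c']
  set A : ℝ := E + 2 + ((a : ℝ) + 1) / 2 with hA
  have hA0 : 0 < A := by positivity
  have hk0 : (0 : ℝ) < 2 * k + 2 := by positivity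
  set δ : ℝ := ε / (2 * k + 2) / A with hδ
  have hδ0 : 0 < δ := by positivity
  have hδA : δ * A = ε / (2 * k + 2) := by rw [hδ]; field_simp
  obtain ⟨n₁, hn₁⟩ := large k δ hδ0
  refine ⟨δ, hδ0, max 2 n₁, fun n hn q m N hq hm hN => ?_⟩
  have hn2 : (2 : ℝ) ≤ n := by exact_mod_cast (le_max_left _ _).trans hn
  have hn0 : (0 : ℝ) < n := by linarith
  have hL : 1 ≤ Real.logb 2 n := by
    rw [Real.le_logb_iff_rpow_le (by norm_num) hn0, Real.rpow_one]
    exact hn2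
  have hq0 : (0 : ℝ) ≤ q := Nat.cast_nonneg q
  have hqn : (q : ℝ) ≤ δ * n := by nlinarith
  have F1 : c' ^ q ≤ 2 ^ (E * (δ * n)) := by
    calc c' ^ q ≤ |c' ^ q| := le_abs_self _
      _ = |c'| ^ q := abs_pow c' q
      _ ≤ (|c'| + 2) ^ q := by gcongr; linarith
      _ = 2 ^ (E * q) := by
          rw [Real.rpow_mul (by norm_num), hE, Real.rpow_logb (by norm_num) (by norm_num) hc0,
            Real.rpow_natCast]
      _ ≤ 2 ^ (E * (δ * n)) := by
          apply Real.rpow_le_rpow_of_exponent_le (by norm_num)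
          gcongr
  have F2 : (m : ℝ) + 1 ≤ 2 ^ (δ * (n : ℝ)) := by
    refine le_trans ?_ (hn₁ n ((le_max_right _ _).trans hn))
    nlinarith
  have F4 : (2 ^ ((n : ℝ) + m) * ((N : ℝ) + 1) ^ (q * k)) ^ (1 / (2 * (k : ℝ) + 2)) ≤
      2 ^ ((n : ℝ) / 2 - ε * n / (2 * k + 2)) * 2 ^ (((a : ℝ) + 1) / 2 * (δ * n)) := by
    have hN0 : (0 : ℝ) ≤ N := Nat.cast_nonneg N
    rw [Real.mul_rpow (by positivity) (by positivity)]
    have G1 : ((2 : ℝ) ^ ((n : ℝ) + m)) ^ (1 / (2 * (k : ℝ) + 2)) ≤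
        2 ^ ((n : ℝ) / 2 - ε * n / (2 * k + 2)) := by
      rw [← Real.rpow_mul (by norm_num)]
      apply Real.rpow_le_rpow_of_exponent_le (by norm_num)
      have e : (n : ℝ) / 2 - ε * n / (2 * k + 2) =
          (n + (k - ε) * n) * (1 / (2 * (k : ℝ) + 2)) := by
        field_simp
        ring
      rw [e]
      gcongr
    have G2 : (((N : ℝ) + 1) ^ (q * k)) ^ (1 / (2 * (k : ℝ) + 2)) ≤
        2 ^ (((a : ℝ) + 1) / 2 * (δ * n)) := by
      have h1 : (N : ℝ) + 1 ≤ (n : ℝ) ^ (a + 1) := by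
        have h2 : (1 : ℝ) ≤ (n : ℝ) ^ a := one_le_pow₀ (by linarith)
        rw [pow_succ]
        nlinarith
      calc (((N : ℝ) + 1) ^ (q * k)) ^ (1 / (2 * (k : ℝ) + 2))
          ≤ (((n : ℝ) ^ (a + 1)) ^ (q * k)) ^ (1 / (2 * (k : ℝ) + 2)) := by gcongr
        _ = (n : ℝ) ^ (((a : ℝ) + 1) * (q * k) * (1 / (2 * (k : ℝ) + 2))) := by
            rw [← pow_mul, ← Real.rpow_natCast, ← Real.rpow_mul hn0.le]
            congr 1
            push_cast
            ring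
        _ ≤ (n : ℝ) ^ (((a : ℝ) + 1) / 2 * q) := by
            apply Real.rpow_le_rpow_of_exponent_le (by linarith)
            have h2 : (k : ℝ) * (1 / (2 * (k : ℝ) + 2)) ≤ 1 / 2 := by
              rw [mul_one_div, div_le_iff₀ hk0]
              linarith
            calc ((a : ℝ) + 1) * (q * k) * (1 / (2 * (k : ℝ) + 2))
                = ((a : ℝ) + 1) * q * (k * (1 / (2 * (k : ℝ) + 2))) := by ring
              _ ≤ ((a : ℝ) + 1) * q * (1 / 2) := by gcongr
              _ = ((a : ℝ) + 1) / 2 * q := by ring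
        _ = 2 ^ (((a : ℝ) + 1) / 2 * (q * Real.logb 2 n)) := by
            have h3 : (n : ℝ) = 2 ^ Real.logb 2 n :=
              (Real.rpow_logb (by norm_num) (by norm_num) hn0).symm
            conv_lhs => rw [h3]
            rw [← Real.rpow_mul (by norm_num)]
            congr 1
            ring
        _ ≤ 2 ^ (((a : ℝ) + 1) / 2 * (δ * n)) := by
            apply Real.rpow_le_rpow_of_exponent_le (by norm_num)
            gcongr
    exact mul_le_mul G1 G2 (by positivity) (by positivity)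
  calc c' ^ q * ((m : ℝ) + 1) * 2 ^ ((n : ℝ) / 2) *
      (2 ^ ((n : ℝ) + m) * ((N : ℝ) + 1) ^ (q * k)) ^ (1 / (2 * (k : ℝ) + 2))
      ≤ 2 ^ (E * (δ * n)) * 2 ^ (δ * (n : ℝ)) * 2 ^ ((n : ℝ) / 2) *
        (2 ^ ((n : ℝ) / 2 - ε * n / (2 * k + 2)) * 2 ^ (((a : ℝ) + 1) / 2 * (δ * n))) := by
        gcongr
    _ = 2 ^ (E * (δ * n) + δ * n + n / 2 + ((n : ℝ) / 2 - ε * n / (2 * k + 2) +
        ((a : ℝ) + 1) / 2 * (δ * n))) := by
        rw [← Real.rpow_add (by norm_num), ← Real.rpow_add (by norm_num),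
          ← Real.rpow_add (by norm_num), ← Real.rpow_add (by norm_num)]
    _ ≤ 2 ^ ((1 - δ) * (n : ℝ)) := by
        apply Real.rpow_le_rpow_of_exponent_le (by norm_num)
        have h1 : E * (δ * n) + δ * n + n / 2 + ((n : ℝ) / 2 - ε * n / (2 * k + 2) +
            ((a : ℝ) + 1) / 2 * (δ * n)) = (1 - δ) * n + (δ * A - ε / (2 * k + 2)) * n := by
          rw [hA]
          ring
        rw [h1, hδA, sub_self, zero_mul, add_zero]

end Pool.Agent.Helper96.NS5
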