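import Pool.Agent.Helper20.NS5.Goals2

/-!
# Packet NS5-NUT (MP_c578c8_lc): the real inequality for the final bound, variant
-/

set_option autoImplicit false

namespace Pool.Agent.Helper96.NS5

open Pool.Agent.Helper20.NS5

/-- The power of the bound. -/
def MM (k e n i m T : ℕ) : ℕ :=
  ((2 * (k + 1)) ^ 2 * 2 ^ (e + 4) * (3 * (m + i + 1))) ^ (2 * (k + 1)) *
    2 ^ (n * (k + 1)) * (2 ^ (n + m + 4 * (i + 1)) * T ^ k)

theorem nut_nat1 (k e n i m T : ℕ) :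
    T ^ k * (2 ^ i * ((2 * (k + 1)) ^ (2 * (k + 1) + 1) *
        2 ^ (2 * n) * ((m + 3 * i + 2) + 1) ^ 2 *
        2 ^ ((k + 1) * (n + 1) + (m + 3 * i + 2) + 2 * e + 4))) ≤ 2 ^ n * MM k e n i m T := by
  unfold MM
  have h1 : (2 * (k + 1)) ^ (2 * (k + 1) + 1) ≤ (2 * (k + 1)) ^ (2 * (2 * (k + 1))) :=
    Nat.pow_le_pow_right (by omega) (by omega)
  have h2 : ((m + 3 * i + 2) + 1) ^ 2 ≤ (3 * (m + i + 1)) ^ (2 * (k + 1)) := by
    calc ((m + 3 * i + 2) + 1) ^ 2 ≤ (3 * (m + i + 1)) ^ 2 := Nat.pow_le_pow_left (by omega) 2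
      _ ≤ (3 * (m + i + 1)) ^ (2 * (k + 1)) := Nat.pow_le_pow_right (by omega) (by omega)
  have h3 : i + (2 * n + ((k + 1) * (n + 1) + (m + 3 * i + 2) + 2 * e + 4)) ≤
      n + ((e + 4) * (2 * (k + 1)) + (n * (k + 1) + (n + m + 4 * (i + 1)))) := by
    nlinarith [Nat.zero_le (e * k)]
  have h4 : 2 ^ (i + (2 * n + ((k + 1) * (n + 1) + (m + 3 * i + 2) + 2 * e + 4))) ≤
      2 ^ (n + ((e + 4) * (2 * (k + 1)) + (n * (k + 1) + (n + m + 4 * (i + 1))))) :=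
    Nat.pow_le_pow_right (by norm_num) h3
  calc T ^ k * (2 ^ i * ((2 * (k + 1)) ^ (2 * (k + 1) + 1) *
        2 ^ (2 * n) * ((m + 3 * i + 2) + 1) ^ 2 *
        2 ^ ((k + 1) * (n + 1) + (m + 3 * i + 2) + 2 * e + 4)))
      = T ^ k * ((2 * (k + 1)) ^ (2 * (k + 1) + 1) * ((m + 3 * i + 2) + 1) ^ 2 *
        2 ^ (i + (2 * n + ((k + 1) * (n + 1) + (m + 3 * i + 2) + 2 * e + 4)))) := by
        rw [pow_add 2 i, pow_add 2 (2 * n)]
        ring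
    _ ≤ T ^ k * ((2 * (k + 1)) ^ (2 * (2 * (k + 1))) * (3 * (m + i + 1)) ^ (2 * (k + 1)) *
        2 ^ (n + ((e + 4) * (2 * (k + 1)) + (n * (k + 1) + (n + m + 4 * (i + 1)))))) := by
        gcongr
    _ = 2 ^ n * (((2 * (k + 1)) ^ 2 * 2 ^ (e + 4) * (3 * (m + i + 1))) ^ (2 * (k + 1)) *
    2 ^ (n * (k + 1)) * (2 ^ (n + m + 4 * (i + 1)) * T ^ k)) := by
        rw [mul_pow ((2 * (k + 1)) ^ 2 * 2 ^ (e + 4)), mul_pow ((2 * (k + 1)) ^ 2), ← pow_mul,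
          ← pow_mul, pow_add 2 n (_ + _), pow_add 2 ((e + 4) * (2 * (k + 1))),
          pow_add 2 (n * (k + 1))]
        ring

theorem nut_nat2 (k e n i m T : ℕ) (hT : 1 ≤ T) (h : n < e ∨ (k + 1) * n < m + 3 * i + 2) :
    (2 ^ n) ^ (2 * (k + 1)) ≤ MM k e n i m T := by
  unfold MM
  have hT' : 1 ≤ T ^ k := Nat.one_le_pow _ _ hT
  have hP : 1 ≤ 2 ^ (n + m + 4 * (i + 1)) * T ^ k :=
    Nat.one_le_iff_ne_zero.2 (mul_ne_zero (by positivity) (by omega))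
  have hQ : 1 ≤ 2 ^ (n * (k + 1)) := Nat.one_le_two_pow
  have hR : 1 ≤ ((2 * (k + 1)) ^ 2 * 2 ^ (e + 4) * (3 * (m + i + 1))) ^ (2 * (k + 1)) :=
    Nat.one_le_iff_ne_zero.2 (by positivity)
  rcases h with h | h
  · have h1 : 2 ^ n ≤ (2 * (k + 1)) ^ 2 * 2 ^ (e + 4) * (3 * (m + i + 1)) := by
      have h2 : 2 ^ n ≤ 2 ^ (e + 4) := Nat.pow_le_pow_right (by norm_num) (by omega)
      have h3 : 1 ≤ (2 * (k + 1)) ^ 2 := Nat.one_le_iff_ne_zero.2 (by positivity)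
      calc 2 ^ n = 1 * 2 ^ n * 1 := by ring
        _ ≤ (2 * (k + 1)) ^ 2 * 2 ^ (e + 4) * (3 * (m + i + 1)) :=
          Nat.mul_le_mul (Nat.mul_le_mul h3 h2) (by omega)
    calc (2 ^ n) ^ (2 * (k + 1)) ≤
          ((2 * (k + 1)) ^ 2 * 2 ^ (e + 4) * (3 * (m + i + 1))) ^ (2 * (k + 1)) :=
          Nat.pow_le_pow_left h1 _
      _ = ((2 * (k + 1)) ^ 2 * 2 ^ (e + 4) * (3 * (m + i + 1))) ^ (2 * (k + 1)) * 1 * 1 := by ring
      _ ≤ _ := Nat.mul_le_mul (Nat.mul_le_mul le_rfl hQ) hP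
  · have h1 : n * (2 * (k + 1)) ≤ n * (k + 1) + (n + m + 4 * (i + 1)) := by nlinarith
    calc (2 ^ n) ^ (2 * (k + 1)) = 2 ^ (n * (2 * (k + 1))) := by rw [← pow_mul]
      _ ≤ 2 ^ (n * (k + 1) + (n + m + 4 * (i + 1))) := Nat.pow_le_pow_right (by norm_num) h1
      _ = 1 * 2 ^ (n * (k + 1)) * (2 ^ (n + m + 4 * (i + 1)) * 1) := by
          rw [pow_add 2 (n * (k + 1))]
          ring
      _ ≤ _ := Nat.mul_le_mul (Nat.mul_le_mul hR le_rfl) (Nat.mul_le_mul le_rfl hT')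

theorem nut : NUT_stmt := by
  intro k e n i m T S hT h
  have key : ((S ^ (2 * (k + 1)) : ℤ) : ℝ) ≤ ((MM k e n i m T : ℕ) : ℝ) := by
    rcases h with h | ⟨h, h'⟩
    · have h1 : (2 : ℤ) ^ n * S ^ (2 * (k + 1)) ≤ ((2 ^ n * MM k e n i m T : ℕ) : ℤ) :=
        h.trans (by exact_mod_cast nut_nat1 k e n i m T)
      push_cast at h1
      have h2 : S ^ (2 * (k + 1)) ≤ (MM k e n i m T : ℤ) :=
        le_of_mul_le_mul_left h1 (by positivity)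
      exact_mod_cast h2
    · have h1 : S ^ (2 * (k + 1)) ≤ ((2 : ℤ) ^ n) ^ (2 * (k + 1)) := by
        rw [← Even.pow_abs (even_two_mul _) S]
        exact pow_le_pow_left₀ (abs_nonneg _) h _
      have h2 : ((2 : ℤ) ^ n) ^ (2 * (k + 1)) ≤ (MM k e n i m T : ℤ) := by
        exact_mod_cast nut_nat2 k e n i m T hT h'
      exact_mod_cast h1.trans h2
  set Y : ℝ := 2 ^ ((n : ℝ) + m + 4 * (i + 1)) * (T : ℝ) ^ k with hY
  have hY0 : 0 ≤ Y := by positivity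
  have hYc : Y = ((2 ^ (n + m + 4 * (i + 1)) * T ^ k : ℕ) : ℝ) := by
    rw [hY]
    push_cast
    rw [← Real.rpow_natCast 2 (n + m + 4 * (i + 1))]
    push_cast
    ring
  refine le_of_pow_le_pow_left₀ (n := 2 * (k + 1)) (by omega) (by positivity) ?_
  have e1 : |(S : ℝ)| ^ (2 * (k + 1)) = ((S ^ (2 * (k + 1)) : ℤ) : ℝ) := by
    rw [Even.pow_abs (even_two_mul _)]
    push_cast
    rfl
  have e2 : ((2 : ℝ) ^ ((n : ℝ) / 2)) ^ (2 * (k + 1)) = 2 ^ (n * (k + 1)) := by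
    rw [← Real.rpow_natCast, ← Real.rpow_mul (by norm_num), ← Real.rpow_natCast]
    congr 1
    push_cast
    ring
  have e3 : (Y ^ (1 / (2 * (k : ℝ) + 2))) ^ (2 * (k + 1)) = Y := by
    rw [← Real.rpow_natCast, ← Real.rpow_mul hY0]
    have h2 : 1 / (2 * (k : ℝ) + 2) * ((2 * (k + 1) : ℕ) : ℝ) = 1 := by
      push_cast
      have h3 : (2 * (k : ℝ) + 2) ≠ 0 := by positivity
      field_simp
    rw [h2, Real.rpow_one]
  rw [e1, mul_pow, e3, mul_pow, e2, hYc]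
  refine key.trans (le_of_eq ?_)
  unfold MM
  push_cast
  ring

end Pool.Agent.Helper96.NS5
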